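import Pool.Agent.Helper91.FS.Goals2

/-!
# FS-PGAMX (packet 14582): `PΓL(2, K)` on the projective line
-/

set_option autoImplicit false

namespace Pool.Agent.Helper55.FS

open Finset
open Pool.Agent.Helper47.SR (Grp)
open Pool.Agent.Helper49.NF (els fx)
open Pool.Agent.Helper91.FS
open scoped MatrixGroups

section num

variable {K : Type} [Field K]

/-- the fixed points of an automorphism `≠ 1` of a finite field: at most `√|K|` -/
theorem card_fixed [Fintype K] [DecidableEq K] (φ : K ≃+* K) (hφ : φ ≠ RingEquiv.refl K) :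
    #((univ : Finset K).filter (fun x => φ x = x)) * #((univ : Finset K).filter (fun x => φ x = x)) ≤
      Fintype.card K := by
  obtain ⟨x₀, hx₀⟩ : ∃ x, φ x ≠ x := by
    by_contra h
    push Not at h
    exact hφ (RingEquiv.ext h)
  rw [← Finset.card_product, ← Finset.card_univ]
  refine Finset.card_le_card_of_injOn (fun q => q.1 + q.2 * x₀) (fun _ _ => Finset.mem_coe.2 (mem_univ _)) ?_
  rintro ⟨a, b⟩ hab ⟨a', b'⟩ hab' h
  simp only [coe_product, Set.mem_prod, coe_filter, mem_univ, true_and, Set.mem_ofPred_eq] at hab hab'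
  simp only at h
  have hb : b = b' := by
    by_contra hne
    have hne' : b - b' ≠ 0 := sub_ne_zero.2 hne
    have e1 : x₀ = (a' - a) / (b - b') := by
      rw [eq_div_iff hne']
      linear_combination h
    apply hx₀
    rw [e1, map_div₀, map_sub, map_sub, hab.1, hab.2, hab'.1, hab'.2]
  subst hb
  have : a = a' := by linear_combination h
  rw [this]

theorem two_pow_le [Finite K] : 2 ^ Nat.card (K ≃+* K) ≤ Nat.card K := by
  classical
  obtain ⟨p, hp⟩ := CharP.exists K
  have hp0 : p ≠ 0 := CharP.char_ne_zero_of_finite K p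
  have : NeZero p := ⟨hp0⟩
  have : Fact p.Prime := ⟨(CharP.char_is_prime_or_zero K p).resolve_right hp0⟩
  let _ : Algebra (ZMod p) K := ZMod.algebra K p
  have h1 : Nat.card (K ≃+* K) ≤ Nat.card (K ≃ₐ[ZMod p] K) := by
    have : Finite (K ≃ₐ[ZMod p] K) := Finite.of_injective (fun φ : K ≃ₐ[ZMod p] K => (φ : K → K))
      DFunLike.coe_injective
    refine Nat.card_le_card_of_injective
      (fun φ : K ≃+* K => AlgEquiv.ofRingEquiv (f := φ) (fun r => ?_)) ?_
    · exact RingHom.congr_fun (Subsingleton.elim ((φ : K →+* K).comp (algebraMap (ZMod p) K))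
        (algebraMap (ZMod p) K)) r
    · intro φ ψ h
      ext x
      exact DFunLike.congr_fun h x
  have h2 : Nat.card (K ≃ₐ[ZMod p] K) = Module.finrank (ZMod p) K :=
    IsGalois.card_aut_eq_finrank (ZMod p) K
  have := Fintype.ofFinite K
  have h3 : Nat.card K = p ^ Module.finrank (ZMod p) K := by
    rw [Module.natCard_eq_pow_finrank (K := ZMod p), Nat.card_zmod]
  calc 2 ^ Nat.card (K ≃+* K) ≤ 2 ^ Module.finrank (ZMod p) K :=
        Nat.pow_le_pow_right (by norm_num) (h1.trans h2.le)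
    _ ≤ p ^ Module.finrank (ZMod p) K :=
        Nat.pow_le_pow_left (Fact.out : p.Prime).two_le _
    _ = Nat.card K := h3.symm

end num

section grp

variable {n : ℕ} {K : Type} [Field K] [DecidableEq K]

/-- the permutation of `Fin n` given by an automorphism of `K` -/
def Pf (e : OnePoint K ≃ Fin n) (φ : K ≃+* K) : Equiv.Perm (Fin n) where
  toFun y := e (OnePoint.map φ (e.symm y))
  invFun y := e (OnePoint.map φ.symm (e.symm y))
  left_inv y := by
    show e (OnePoint.map φ.symm (e.symm (e (OnePoint.map φ (e.symm y))))) = y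
    rw [Equiv.symm_apply_apply, omap_comp, RingEquiv.self_trans_symm, omap_id, Equiv.apply_symm_apply]
  right_inv y := by
    show e (OnePoint.map φ (e.symm (e (OnePoint.map φ.symm (e.symm y))))) = y
    rw [Equiv.symm_apply_apply, omap_comp, RingEquiv.symm_trans_self, omap_id, Equiv.apply_symm_apply]

theorem Pf_apply (e : OnePoint K ≃ Fin n) (φ : K ≃+* K) (x : OnePoint K) :
    Pf e φ (e x) = e (OnePoint.map φ x) := by
  show e (OnePoint.map φ (e.symm (e x))) = _
  rw [Equiv.symm_apply_apply]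

theorem Pf_refl (e : OnePoint K ≃ Fin n) : Pf e (RingEquiv.refl K) = 1 := by
  ext y
  show ((e (OnePoint.map (RingEquiv.refl K) (e.symm y)) : Fin n) : ℕ) = _
  rw [omap_id, Equiv.apply_symm_apply, Equiv.Perm.one_apply]

theorem le_pgam (e : OnePoint K ≃ Fin n) : pgl e ≤ pgam e := by
  rintro γ ⟨g, hg⟩
  exact ⟨g, RingEquiv.refl K, fun x => by rw [omap_id]; exact hg x⟩

/-- an element of `PΓL(2, K)` fixing `∞, 0, 1` is an automorphism of `K` -/
theorem core (e : OnePoint K ≃ Fin n) (hP : PG n (pgl e)) (γ : Equiv.Perm (Fin n)) (hγ : γ ∈ pgam e)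
    (hi : γ (e OnePoint.infty) = e OnePoint.infty) (h0 : γ (e ((0 : K) : OnePoint K)) = e ((0 : K) : OnePoint K))
    (h1 : γ (e ((1 : K) : OnePoint K)) = e ((1 : K) : OnePoint K)) : ∃ φ : K ≃+* K, γ = Pf e φ := by
  obtain ⟨g, φ, hg⟩ := hγ
  rw [hg, OnePoint.map_infty] at hi
  rw [hg, OnePoint.map_some, map_zero] at h0
  rw [hg, OnePoint.map_some, map_one] at h1
  have key : (e.symm.trans ((MulAction.toPerm g).trans e) : Equiv.Perm (Fin n)) = 1 := by
    refine hP.un (e OnePoint.infty) (e ((0 : K) : OnePoint K)) (e ((1 : K) : OnePoint K)) ?_ ?_ ?_ _ ?_ ?_ ?_ ?_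
    · intro h
      exact OnePoint.infty_ne_coe (0 : K) (e.injective h)
    · intro h
      exact OnePoint.infty_ne_coe (1 : K) (e.injective h)
    · intro h
      exact zero_ne_one (OnePoint.coe_injective (e.injective h))
    · refine ⟨g, fun x => ?_⟩
      simp
    · simpa using hi
    · simpa using h0
    · simpa using h1
  refine ⟨φ, ?_⟩
  ext y
  obtain ⟨x, rfl⟩ := e.surjective y
  rw [hg, Pf_apply]
  have := DFunLike.congr_fun key (e (OnePoint.map φ x))
  simp only [Equiv.trans_apply, Equiv.symm_apply_apply, MulAction.toPerm_apply, Equiv.Perm.one_apply] at this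
  rw [this]

theorem conj_core (e : OnePoint K ≃ Fin n) (hP : PG n (pgl e)) (a b c : Fin n) (hab : a ≠ b) (hac : a ≠ c)
    (hbc : b ≠ c) : ∃ γ₀ : Equiv.Perm (Fin n), ∀ γ ∈ pgam e, γ a = a → γ b = b → γ c = c →
      ∃ φ : K ≃+* K, γ = γ₀ * Pf e φ * γ₀⁻¹ := by
  obtain ⟨γ₀, hγ₀, ha, hb, hc⟩ := hP.ex (e OnePoint.infty) (e ((0 : K) : OnePoint K)) (e ((1 : K) : OnePoint K))
    a b c (fun h => OnePoint.infty_ne_coe (0 : K) (e.injective h))
    (fun h => OnePoint.infty_ne_coe (1 : K) (e.injective h))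
    (fun h => zero_ne_one (OnePoint.coe_injective (e.injective h))) hab hac hbc
  refine ⟨γ₀, fun γ hγ h1 h2 h3 => ?_⟩
  have hm : γ₀⁻¹ * γ * γ₀ ∈ pgam e :=
    mul_mem (mul_mem (inv_mem (le_pgam e hγ₀)) hγ) (le_pgam e hγ₀)
  obtain ⟨φ, hφ⟩ := core e hP (γ₀⁻¹ * γ * γ₀) hm
    (by rw [Equiv.Perm.mul_apply, Equiv.Perm.mul_apply, ha, h1, Equiv.Perm.inv_eq_iff_eq, ha])
    (by rw [Equiv.Perm.mul_apply, Equiv.Perm.mul_apply, hb, h2, Equiv.Perm.inv_eq_iff_eq, hb])
    (by rw [Equiv.Perm.mul_apply, Equiv.Perm.mul_apply, hc, h3, Equiv.Perm.inv_eq_iff_eq, hc])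
  refine ⟨φ, ?_⟩
  rw [← hφ]
  group

theorem fx_conj (γ₀ δ : Equiv.Perm (Fin n)) : fx (γ₀ * δ * γ₀⁻¹) = fx δ := by
  unfold fx
  refine (Finset.card_bij (fun x _ => γ₀ x) ?_ ?_ ?_).symm
  · intro x hx
    simp only [mem_filter, mem_univ, true_and] at hx ⊢
    simp [hx]
  · intro x _ y _ h
    exact γ₀.injective h
  · intro y hy
    simp only [mem_filter, mem_univ, true_and] at hy
    refine ⟨γ₀⁻¹ y, ?_, by simp⟩
    simp only [mem_filter, mem_univ, true_and]
    rw [Equiv.Perm.mul_apply, Equiv.Perm.mul_apply] at hy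
    rw [Equiv.Perm.eq_inv_iff_eq]
    exact hy

theorem fx_Pf [Fintype K] (e : OnePoint K ≃ Fin n) (φ : K ≃+* K) :
    fx (Pf e φ) ≤ #((univ : Finset K).filter (fun x => φ x = x)) + 1 := by
  classical
  unfold fx
  have hsub : (univ : Finset (Fin n)).filter (fun x => Pf e φ x = x) ⊆
      insert (e OnePoint.infty)
        (((univ : Finset K).filter (fun x => φ x = x)).image (fun x : K => e ((x : K) : OnePoint K))) := by
    intro y hy
    simp only [mem_filter, mem_univ, true_and] at hy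
    obtain ⟨x, rfl⟩ := e.surjective y
    rw [Pf_apply] at hy
    have hx := e.injective hy
    induction x using OnePoint.rec with
    | infty => exact mem_insert_self _ _
    | coe x =>
      refine mem_insert_of_mem (mem_image.2 ⟨x, ?_, rfl⟩)
      rw [OnePoint.map_some] at hx
      simp only [mem_filter, mem_univ, true_and]
      exact OnePoint.coe_injective hx
  exact (card_le_card hsub).trans ((card_insert_le _ _).trans (Nat.add_le_add_right card_image_le 1))

end grp

theorem goal_PGAMX (hyp : Goal_PGLX) : Goal_PGAMX := by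
  intro n K _ _ e
  classical
  have : Finite (OnePoint K) := Finite.of_equiv _ e.symm
  have : Finite K := Finite.of_injective (fun x : K => (x : OnePoint K)) OnePoint.coe_injective
  have := Fintype.ofFinite K
  have : Finite (K ≃+* K) := Finite.of_injective (fun φ : K ≃+* K => (φ : K → K)) DFunLike.coe_injective
  have := Fintype.ofFinite (K ≃+* K)
  have hn : n = Nat.card K + 1 := by
    have h1 : Nat.card (OnePoint K) = n := by
      rw [Nat.card_congr e, Nat.card_fin]
    have h2 : Nat.card (OnePoint K) = Nat.card K + 1 := Finite.card_option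
    rw [← h1, h2]
  have hK2 : 2 ≤ Nat.card K := Finite.one_lt_card
  have hP := hyp n K e
  refine ⟨le_pgam e, Nat.card (K ≃+* K), rfl, two_pow_le.trans (by omega), ?_⟩
  refine ⟨by norm_num, by omega, Nat.card_pos, ?_, ?_⟩
  · intro T hT
    obtain ⟨a, b, c, hab, hac, hbc, rfl⟩ := Finset.card_eq_three.1 hT
    obtain ⟨γ₀, h₀⟩ := conj_core e hP a b c hab hac hbc
    unfold pst
    have hsub : (els (pgam e)).filter (fun γ => ∀ x ∈ ({a, b, c} : Finset (Fin n)), γ x = x) ⊆
        (univ : Finset (K ≃+* K)).image (fun φ => γ₀ * Pf e φ * γ₀⁻¹) := by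
      intro γ hγ
      rw [mem_filter] at hγ
      obtain ⟨φ, hφ⟩ := h₀ γ (by simpa [els] using hγ.1) (hγ.2 a (by simp)) (hγ.2 b (by simp)) (hγ.2 c (by simp))
      exact mem_image.2 ⟨φ, mem_univ _, hφ.symm⟩
    refine (card_le_card hsub).trans (card_image_le.trans ?_)
    rw [card_univ, Nat.card_eq_fintype_card]
  · intro γ hγ hne
    have hs1 : 1 ≤ Nat.sqrt n := Nat.sqrt_pos.2 (by omega)
    by_cases h2 : fx γ ≤ 2
    · omega
    push Not at h2
    unfold fx at h2
    obtain ⟨a, b, c, ha, hb, hc, hab, hac, hbc⟩ := Finset.two_lt_card_iff.1 h2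
    simp only [mem_filter, mem_univ, true_and] at ha hb hc
    obtain ⟨γ₀, h₀⟩ := conj_core e hP a b c hab hac hbc
    obtain ⟨φ, hφ⟩ := h₀ γ hγ ha hb hc
    have hφ1 : φ ≠ RingEquiv.refl K := by
      rintro rfl
      apply hne
      rw [hφ, Pf_refl, mul_one, mul_inv_cancel]
    rw [hφ, fx_conj]
    refine (fx_Pf e φ).trans (Nat.add_le_add_right (Nat.le_sqrt.2 ?_) 1)
    refine (card_fixed φ hφ1).trans ?_
    rw [← Nat.card_eq_fintype_card]
    omega

end Pool.Agent.Helper55.FS
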